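import Pool.Agent.Helper6K9.ES.Ode
import Pool.Agent.Helper6K9.ES.Conv

set_option autoImplicit false

/-!
# Continuous dependence of the orbits on the potential
-/

namespace Pool.Agent.Helper6K9.EG

open Set Filter Topology Pool.Agent.Helper6K9.ES Pool.Agent.Helper6K9.ES.OdeL
open scoped ContDiff NNReal

variable {m : ℕ}

/-- orbits -/
def Orb (A : Matrix (Fin (m + 1)) (Fin (m + 1)) ℝ) (f : E m → ℝ) (γ : ℝ → Q m) : Prop :=
  (∀ t, DifferentiableAt ℝ γ t) ∧ ∀ (t : ℝ) (i : Fin (m + 1)),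
    HasDerivAt (fun s => dv (lag A f) i (γ s) (deriv γ s) s)
      (dx (lag A f) i (γ t) (deriv γ t) t) t

/-- the vector field -/
noncomputable def vf (A : Matrix (Fin (m + 1)) (Fin (m + 1)) ℝ) (f : E m → ℝ) (t : ℝ)
    (y : Q m × Q m) : Q m × Q m := (y.2, Lam A⁻¹ (fderiv ℝ f (y.1, t)))

theorem lip_vf (A : Matrix (Fin (m + 1)) (Fin (m + 1)) ℝ) (f : E m → ℝ) (hf : ContDiff ℝ 2 f)
    (hper : Per f) : ∃ K : ℝ≥0, (∀ t, LipschitzWith K (vf A f t)) ∧
      Continuous (Function.uncurry (vf A f)) := by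
  have hf1 : ContDiff ℝ 1 (fderiv ℝ f) := hf.fderiv_right (by norm_num)
  have hcont2 : Continuous (fderiv ℝ (fderiv ℝ f)) := hf1.continuous_fderiv (by norm_num)
  obtain ⟨C, hC⟩ := bounded_of_per _ hcont2 (fderiv_per _ (fderiv_per _ hper))
  have hC0 : 0 ≤ C := (norm_nonneg _).trans (hC 0)
  have hlip : LipschitzWith ⟨C, hC0⟩ (fderiv ℝ f) :=
    lipschitzWith_of_nnnorm_fderiv_le (hf1.differentiable (by norm_num)) fun p => hC p
  have hGl : LipschitzWith (‖Lam (m := m) A⁻¹‖₊ * ⟨C, hC0⟩) (fun p : E m => Lam A⁻¹ (fderiv ℝ f p)) :=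
    (Lam A⁻¹).lipschitz.comp hlip
  have hGc := hGl.continuous
  refine ⟨max 1 (‖Lam (m := m) A⁻¹‖₊ * ⟨C, hC0⟩ * 1), fun t => ?_, ?_⟩
  · refine LipschitzWith.prodMk LipschitzWith.prod_snd (hGl.comp ?_)
    refine LipschitzWith.mk_one fun a b => ?_
    rw [Prod.dist_eq]
    simp only [dist_self]
    refine max_le ?_ dist_nonneg
    exact le_max_left _ _
  · exact (continuous_snd.comp continuous_snd).prodMk
      (hGc.comp ((continuous_fst.comp continuous_snd).prodMk continuous_fst))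

/-- orbits solve the differential equation -/
theorem ode_of_orb (A : Matrix (Fin (m + 1)) (Fin (m + 1)) ℝ) (hA : A.PosDef) (f : E m → ℝ)
    (hf : Differentiable ℝ f) (γ : ℝ → Q m) (h : Orb A f γ) (t : ℝ) :
    HasDerivAt (fun t => (γ t, deriv γ t)) (vf A f t (γ t, deriv γ t)) t := by
  have hsym : A.IsSymm := by
    have := hA.isHermitian.eq
    rwa [Matrix.conjTranspose_eq_transpose_of_trivial] at this
  have hdet : IsUnit A.det := hA.det_pos.ne'.isUnit
  have hAA' : A⁻¹ * A = 1 := Matrix.nonsing_inv_mul A hdet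
  refine (h.1 t).hasDerivAt.prodMk ?_
  rw [hasDerivAt_pi]
  intro i
  have h1 : ∀ k, HasDerivAt (fun s => ∑ j, A k j * deriv γ s j)
      (fderiv ℝ f (γ t, t) (Pi.single k 1, 0)) t := by
    intro k
    have h2 := h.2 t k
    rw [dx_lag A f hf] at h2
    have e1 : (fun s => dv (lag A f) k (γ s) (deriv γ s) s) = fun s => ∑ j, A k j * deriv γ s j := by
      funext s
      rw [dv_lag A hsym]
    rwa [e1] at h2
  have h3 : HasDerivAt (fun s => ∑ k, A⁻¹ i k * ∑ j, A k j * deriv γ s j)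
      (∑ k, A⁻¹ i k * fderiv ℝ f (γ t, t) (Pi.single k 1, 0)) t :=
    HasDerivAt.fun_sum fun k _ => (h1 k).const_mul _
  have e2 : (fun s => ∑ k, A⁻¹ i k * ∑ j, A k j * deriv γ s j) = fun s => deriv γ s i := by
    funext s
    simp_rw [Finset.mul_sum, ← mul_assoc]
    rw [Finset.sum_comm]
    simp_rw [← Finset.sum_mul]
    have h8 : ∀ j, ∑ k, A⁻¹ i k * A k j = (1 : Matrix (Fin (m + 1)) (Fin (m + 1)) ℝ) i j := by
      intro j
      rw [← hAA', Matrix.mul_apply]
    simp_rw [h8, Matrix.one_apply]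
    simp
  rw [e2] at h3
  exact h3

/-- solutions of the differential equation are orbits -/
theorem exists_orb (A : Matrix (Fin (m + 1)) (Fin (m + 1)) ℝ) (hA : A.PosDef) (f : E m → ℝ)
    (hf : ContDiff ℝ 2 f) (hper : Per f) (a : ℝ) (x v : Q m) :
    ∃ γ : ℝ → Q m, Orb A f γ ∧ γ a = x ∧ deriv γ a = v := by
  obtain ⟨K, hK, hc⟩ := lip_vf A f hf hper
  have hsym : A.IsSymm := by
    have := hA.isHermitian.eq
    rwa [Matrix.conjTranspose_eq_transpose_of_trivial] at this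
  have hdet : IsUnit A.det := hA.det_pos.ne'.isUnit
  have hAA : A * A⁻¹ = 1 := Matrix.mul_nonsing_inv A hdet
  obtain ⟨ξ, hξ0, hξ⟩ := Haraux.global_ode (fun t y => vf A f (t + a) y) K
    (fun t => hK _) (hc.comp ((continuous_fst.add continuous_const).prodMk continuous_snd)) (x, v)
  obtain ⟨Y, hY⟩ : ∃ Y : ℝ → Q m × Q m, Y = fun t => ξ (t - a) := ⟨_, rfl⟩
  have hYd : ∀ t, HasDerivAt Y (vf A f t (Y t)) t := by
    intro t
    have h1 := hξ (t - a)
    have h2 := HasDerivAt.comp_sub_const t a h1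
    rw [sub_add_cancel] at h2
    rw [hY]
    exact h2
  have hY0 : Y a = (x, v) := by
    rw [hY]
    simp only [sub_self]
    exact hξ0
  have hd1 : ∀ (i : Fin (m + 1)) (t : ℝ), HasDerivAt (fun u => (Y u).1 i) ((Y t).2 i) t := by
    intro i t
    have h1 := (hYd t).fst
    exact hasDerivAt_pi.1 h1 i
  have hd2 : ∀ (i : Fin (m + 1)) (t : ℝ), HasDerivAt (fun u => (Y u).2 i)
      (Lam A⁻¹ (fderiv ℝ f ((Y t).1, t)) i) t := by
    intro i t
    have h1 := (hYd t).snd
    exact hasDerivAt_pi.1 h1 i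
  have hde : ∀ i : Fin (m + 1), deriv (fun u => (Y u).1 i) = fun u => (Y u).2 i := fun i =>
    funext fun t => (hd1 i t).deriv
  have hsol : Sol A f (fun t => (Y t).1) univ := by
    intro t _
    refine ⟨fun i => (hd1 i t).differentiableAt, fun i => ?_, fun i => ?_⟩
    · show DifferentiableAt ℝ (deriv fun u => (Y u).1 i) t
      rw [hde i]
      exact (hd2 i t).differentiableAt
    · show ∑ j, A i j * deriv (deriv fun u => (Y u).1 j) t = dX i f ((Y t).1, t)
      have h1 : ∀ j, deriv (deriv fun u => (Y u).1 j) t = ∑ k, A⁻¹ j k * dX k f ((Y t).1, t) := by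
        intro j
        rw [hde j, (hd2 j t).deriv]
        exact Lam_apply _ _ _ _
      simp_rw [h1, Finset.mul_sum, ← mul_assoc]
      rw [Finset.sum_comm]
      simp_rw [← Finset.sum_mul]
      have h8 : ∀ k, ∑ j, A i j * A⁻¹ j k = (1 : Matrix (Fin (m + 1)) (Fin (m + 1)) ℝ) i k := by
        intro k
        rw [← hAA, Matrix.mul_apply]
      simp_rw [h8, Matrix.one_apply]
      simp
  refine ⟨fun t => (Y t).1, orbit_of_sol A hsym f (hf.differentiable (by norm_num)) _ hsol, ?_, ?_⟩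
  · show (Y a).1 = x
    rw [hY0]
  · have h1 : HasDerivAt (fun t => (Y t).1) (Y a).2 a := (hYd a).fst
    rw [h1.deriv, hY0]

/-- continuous dependence on the potential -/
theorem depend (A : Matrix (Fin (m + 1)) (Fin (m + 1)) ℝ) (hA : A.PosDef) (f : E m → ℝ)
    (hf : ContDiff ℝ 2 f) (hper : Per f) (γ : ℝ → Q m) (h : Orb A f γ) (a b η : ℝ)
    (hη : 0 < η) : ∃ δ : ℝ, 0 < δ ∧ ∀ g : E m → ℝ, ContDiff ℝ 2 g → Per g →
      (∀ p, ‖fderiv ℝ (fun q => g q - f q) p‖ ≤ δ) →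
      ∃ ζ : ℝ → Q m, Orb A g ζ ∧ ∀ t ∈ Icc a b, ‖deriv ζ t - deriv γ t‖ < η ∧
        ‖ζ t - γ t‖ < η := by
  obtain ⟨K, hK, hc⟩ := lip_vf A f hf hper
  have hcont := (gronwallBound_continuous_ε 0 K (b - a)).tendsto 0
  rw [gronwallBound_ε0_δ0] at hcont
  have hev := (hcont.eventually (Iio_mem_nhds hη))
  obtain ⟨r, hr, hr2⟩ := Metric.eventually_nhds_iff.1 hev
  refine ⟨r / 2 / (‖Lam (m := m) A⁻¹‖ + 1), by positivity, fun g hg hgper hgf => ?_⟩
  obtain ⟨ζ, hζ, hζ0, hζ1⟩ := exists_orb A hA g hg hgper a (γ a) (deriv γ a)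
  refine ⟨ζ, hζ, ?_⟩
  have hfd := hf.differentiable (by norm_num : (2 : WithTop ℕ∞) ≠ 0)
  have hgd := hg.differentiable (by norm_num : (2 : WithTop ℕ∞) ≠ 0)
  have h1 := ode_of_orb A hA f hfd γ h
  have h2 := ode_of_orb A hA g hgd ζ hζ
  have hbd : ∀ t y, dist (vf A g t y) (vf A f t y) ≤ r / 2 := by
    intro t y
    unfold vf
    rw [Prod.dist_eq]
    simp only [dist_self]
    refine max_le (by positivity) ?_
    rw [dist_eq_norm, ← map_sub]
    have h3 : fderiv ℝ g (y.1, t) - fderiv ℝ f (y.1, t) = fderiv ℝ (fun q => g q - f q) (y.1, t) :=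
      (fderiv_fun_sub (hgd _) (hfd _)).symm
    rw [h3]
    refine ((Lam A⁻¹).le_opNorm _).trans ?_
    have h4 := hgf (y.1, t)
    have h5 : ‖Lam (m := m) A⁻¹‖ * ‖fderiv ℝ (fun q => g q - f q) (y.1, t)‖ ≤
        (‖Lam (m := m) A⁻¹‖ + 1) * (r / 2 / (‖Lam (m := m) A⁻¹‖ + 1)) := by
      gcongr
      linarith
    rwa [mul_div_cancel₀ _ (by positivity)] at h5
  have h6 := dist_le_of_approx_trajectories_ODE (v := vf A f) (K := K) (a := a) (b := b)
    (f := fun t => (γ t, deriv γ t)) (f' := fun t => vf A f t (γ t, deriv γ t))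
    (g := fun t => (ζ t, deriv ζ t)) (g' := fun t => vf A g t (ζ t, deriv ζ t))
    (εf := 0) (εg := r / 2) (δ := 0) hK
    (fun t _ => (h1 t).continuousAt.continuousWithinAt) (fun t _ => (h1 t).hasDerivWithinAt)
    (fun t _ => by simp)
    (fun t _ => (h2 t).continuousAt.continuousWithinAt) (fun t _ => (h2 t).hasDerivWithinAt)
    (fun t _ => hbd _ _) (by simp [hζ0, hζ1])
  intro t ht
  have h7 := h6 t ht
  have h8 : gronwallBound 0 K (0 + r / 2) (t - a) ≤ gronwallBound 0 K (0 + r / 2) (b - a) :=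
    gronwallBound_mono le_rfl (by positivity) K.2 (by linarith [ht.2])
  have h9 : gronwallBound 0 K (0 + r / 2) (b - a) < η := by
    have : (0 + r / 2) = r / 2 := by ring
    rw [this]
    apply hr2
    rw [Real.dist_eq, sub_zero, abs_of_pos (by positivity)]
    linarith
  have h10 := lt_of_le_of_lt (h7.trans h8) h9
  rw [Prod.dist_eq] at h10
  have h11 := max_lt_iff.1 h10
  constructor
  · rw [← dist_eq_norm, dist_comm]
    exact h11.2
  · rw [← dist_eq_norm, dist_comm]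
    exact h11.1

end Pool.Agent.Helper6K9.EG
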