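import Pool.Agent.Helper6K9.EG.Dep

set_option autoImplicit false

/-!
# Generic growth of the speed
-/

namespace Pool.Agent.Helper6K9.EG

open Set Filter Topology Pool.Agent.Helper6K9.ES
open scoped ContDiff

variable {m : ℕ}

/-- the `k`-th open set: there is an orbit with speeds above `k` during a time interval `[a, b]`, and
the speed grows from less than `r` to more than `g r` -/
def UU (A : Matrix (Fin (m + 1)) (Fin (m + 1)) ℝ) (g : ℝ → ℝ) (k : ℕ) : Set (E m → ℝ) :=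
  {f | (ContDiff ℝ 2 f ∧ Per f) ∧ ∃ γ : ℝ → Q m, Orb A f γ ∧ ∃ a b r : ℝ, a < b ∧
    (∀ t ∈ Icc a b, (k : ℝ) < ‖deriv γ t‖) ∧ ‖deriv γ a‖ < r ∧ g r < ‖deriv γ b‖}

theorem uu_open (A : Matrix (Fin (m + 1)) (Fin (m + 1)) ℝ) (hA : A.PosDef) (g : ℝ → ℝ) (k : ℕ)
    (f : E m → ℝ) (hf : f ∈ UU A g k) : ∃ δ : ℝ, 0 < δ ∧ ∀ h : E m → ℝ, ContDiff ℝ 2 h ∧ Per h →
      (∀ (j : ℕ) (p : E m), j ≤ 2 → ‖iteratedFDeriv ℝ j (fun q => h q - f q) p‖ ≤ δ) →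
      h ∈ UU A g k := by
  obtain ⟨⟨hf1, hf2⟩, γ, hγ, a, b, r, hab, h1, h2, h3⟩ := hf
  have hcont : Continuous (fun t => ‖deriv γ t‖) := by
    have h4 : Continuous (fun t => (γ t, deriv γ t)) := continuous_iff_continuousAt.2 fun t =>
      (ode_of_orb A hA f (hf1.differentiable (by norm_num)) γ hγ t).continuousAt
    exact (continuous_snd.comp h4).norm
  obtain ⟨t₀, ht₀, hmin⟩ := isCompact_Icc.exists_isMinOn (nonempty_Icc.2 hab.le)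
    hcont.continuousOn
  have hk := h1 t₀ ht₀
  obtain ⟨η, hη⟩ : ∃ η : ℝ, η = min (‖deriv γ t₀‖ - k) (min (r - ‖deriv γ a‖)
    (‖deriv γ b‖ - g r)) := ⟨_, rfl⟩
  have hη0 : 0 < η := by
    rw [hη]
    refine lt_min (by linarith) (lt_min (by linarith) (by linarith))
  have hη1 : η ≤ ‖deriv γ t₀‖ - k := by rw [hη]; exact min_le_left _ _
  have hη2 : η ≤ r - ‖deriv γ a‖ := by
    rw [hη]; exact (min_le_right _ _).trans (min_le_left _ _)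
  have hη3 : η ≤ ‖deriv γ b‖ - g r := by
    rw [hη]; exact (min_le_right _ _).trans (min_le_right _ _)
  obtain ⟨δ, hδ, hd⟩ := depend A hA f hf1 hf2 γ hγ a b η hη0
  refine ⟨δ, hδ, fun h hh hclose => ?_⟩
  obtain ⟨ζ, hζ, hz⟩ := hd h hh.1 hh.2 fun p => by
    have := hclose 1 p (by norm_num)
    rwa [norm_iteratedFDeriv_one] at this
  have hz' : ∀ t ∈ Icc a b, |‖deriv ζ t‖ - ‖deriv γ t‖| < η := fun t ht =>
    (abs_norm_sub_norm_le _ _).trans_lt (hz t ht).1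
  refine ⟨hh, ζ, hζ, a, b, r, hab, fun t ht => ?_, ?_, ?_⟩
  · have h5 := abs_lt.1 (hz' t ht)
    have h6 : ‖deriv γ t₀‖ ≤ ‖deriv γ t‖ := hmin ht
    linarith
  · have h5 := abs_lt.1 (hz' a (left_mem_Icc.2 hab.le))
    linarith
  · have h5 := abs_lt.1 (hz' b (right_mem_Icc.2 hab.le))
    linarith

theorem uu_dense (A : Matrix (Fin (m + 1)) (Fin (m + 1)) ℝ) (g : ℝ → ℝ) (k : ℕ)
    (f : E m → ℝ) (hf : ContDiff ℝ 2 f ∧ Per f)
    (hγ : ∃ γ : ℝ → Q m, Orb A f γ ∧ Tendsto (fun t => ‖deriv γ t‖) atTop atTop) :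
    f ∈ UU A g k := by
  obtain ⟨γ, h1, h2⟩ := hγ
  obtain ⟨a, ha⟩ := eventually_atTop.1 (h2.eventually_gt_atTop (k : ℝ))
  obtain ⟨b, hb⟩ := eventually_atTop.1 (h2.eventually_gt_atTop (g (‖deriv γ a‖ + 1)))
  refine ⟨hf, γ, h1, a, max b (a + 1), ‖deriv γ a‖ + 1, ?_, fun t ht => ha t ht.1, by linarith,
    hb _ (le_max_left _ _)⟩
  linarith [le_max_right b (a + 1)]

theorem uu_grow (A : Matrix (Fin (m + 1)) (Fin (m + 1)) ℝ) (g : ℝ → ℝ) (hg : Monotone g)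
    (f : E m → ℝ) (hf : ∀ k, f ∈ UU A g k) (R : ℝ) :
    ∃ γ : ℝ → Q m, Orb A f γ ∧ ∃ a b : ℝ, a < b ∧ (∀ t ∈ Icc a b, R ≤ ‖deriv γ t‖) ∧
      g ‖deriv γ a‖ ≤ ‖deriv γ b‖ := by
  obtain ⟨k, hk⟩ := exists_nat_ge R
  obtain ⟨-, γ, h1, a, b, r, hab, h2, h3, h4⟩ := hf k
  exact ⟨γ, h1, a, b, hab, fun t ht => hk.trans (h2 t ht).le, (hg h3.le).trans h4.le⟩

end Pool.Agent.Helper6K9.EG
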