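import Pool.Agent.Helper6K9.EG.Dep

set_option autoImplicit false

/-!
# Generic growth of the speed, with a rate
-/

namespace Pool.Agent.Helper6K9.EG

open Set Filter Topology Pool.Agent.Helper6K9.ES
open scoped ContDiff

variable {m : ℕ}

/-- the `k`-th open set: there is an orbit with speeds above `k` and above `φ (t - a)` during a time
interval `[a, b]`, and the speed grows from less than `r` to more than `g r` -/
def UR (A : Matrix (Fin (m + 1)) (Fin (m + 1)) ℝ) (g φ : ℝ → ℝ) (k : ℕ) : Set (E m → ℝ) :=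
  {f | (ContDiff ℝ 2 f ∧ Per f) ∧ ∃ γ : ℝ → Q m, Orb A f γ ∧ ∃ a b r : ℝ, a < b ∧
    (∀ t ∈ Icc a b, max (k : ℝ) (φ (t - a)) < ‖deriv γ t‖) ∧ ‖deriv γ a‖ < r ∧ g r < ‖deriv γ b‖}

theorem ur_open (A : Matrix (Fin (m + 1)) (Fin (m + 1)) ℝ) (hA : A.PosDef) (g φ : ℝ → ℝ)
    (hφ : Continuous φ) (k : ℕ) (f : E m → ℝ) (hf : f ∈ UR A g φ k) :
    ∃ δ : ℝ, 0 < δ ∧ ∀ h : E m → ℝ, ContDiff ℝ 2 h ∧ Per h →
      (∀ (j : ℕ) (p : E m), j ≤ 2 → ‖iteratedFDeriv ℝ j (fun q => h q - f q) p‖ ≤ δ) →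
      h ∈ UR A g φ k := by
  obtain ⟨⟨hf1, hf2⟩, γ, hγ, a, b, r, hab, h1, h2, h3⟩ := hf
  have hcont : Continuous (fun t => ‖deriv γ t‖) := by
    have h4 : Continuous (fun t => (γ t, deriv γ t)) := continuous_iff_continuousAt.2 fun t =>
      (ode_of_orb A hA f (hf1.differentiable (by norm_num)) γ hγ t).continuousAt
    exact (continuous_snd.comp h4).norm
  have hcont2 : Continuous (fun t => ‖deriv γ t‖ - max (k : ℝ) (φ (t - a))) :=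
    hcont.sub (continuous_const.max (hφ.comp (continuous_id.sub continuous_const)))
  obtain ⟨t₀, ht₀, hmin⟩ := isCompact_Icc.exists_isMinOn (nonempty_Icc.2 hab.le)
    hcont2.continuousOn
  have hk := h1 t₀ ht₀
  obtain ⟨η, hη⟩ : ∃ η : ℝ, η = min (‖deriv γ t₀‖ - max (k : ℝ) (φ (t₀ - a)))
    (min (r - ‖deriv γ a‖) (‖deriv γ b‖ - g r)) := ⟨_, rfl⟩
  have hη0 : 0 < η := by
    rw [hη]
    refine lt_min (by linarith) (lt_min (by linarith) (by linarith))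
  have hη1 : η ≤ ‖deriv γ t₀‖ - max (k : ℝ) (φ (t₀ - a)) := by rw [hη]; exact min_le_left _ _
  have hη2 : η ≤ r - ‖deriv γ a‖ := by
    rw [hη]; exact (min_le_right _ _).trans (min_le_left _ _)
  have hη3 : η ≤ ‖deriv γ b‖ - g r := by
    rw [hη]; exact (min_le_right _ _).trans (min_le_right _ _)
  obtain ⟨δ, hδ, hd⟩ := depend A hA f hf1 hf2 γ hγ a b η hη0
  refine ⟨δ, hδ, fun h hh hclose => ?_⟩
  obtain ⟨ζ, hζ, hz⟩ := hd h hh.1 hh.2 fun p => by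
    have := hclose 1 p (by norm_num)
    rwa [norm_iteratedFDeriv_one] at this
  have hz' : ∀ t ∈ Icc a b, |‖deriv ζ t‖ - ‖deriv γ t‖| < η := fun t ht =>
    (abs_norm_sub_norm_le _ _).trans_lt (hz t ht).1
  refine ⟨hh, ζ, hζ, a, b, r, hab, fun t ht => ?_, ?_, ?_⟩
  · have h5 := abs_lt.1 (hz' t ht)
    have h6 : ‖deriv γ t₀‖ - max (k : ℝ) (φ (t₀ - a)) ≤
      ‖deriv γ t‖ - max (k : ℝ) (φ (t - a)) := hmin ht
    linarith
  · have h5 := abs_lt.1 (hz' a (left_mem_Icc.2 hab.le))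
    linarith
  · have h5 := abs_lt.1 (hz' b (right_mem_Icc.2 hab.le))
    linarith

theorem ur_dense (A : Matrix (Fin (m + 1)) (Fin (m + 1)) ℝ) (g φ : ℝ → ℝ) (k : ℕ)
    (f : E m → ℝ) (hf : ContDiff ℝ 2 f ∧ Per f)
    (hγ : ∃ γ : ℝ → Q m, Orb A f γ ∧ Tendsto (fun t => ‖deriv γ t‖) atTop atTop ∧
      ∀ᶠ a : ℝ in atTop, ∀ t, a ≤ t → φ (t - a) < ‖deriv γ t‖) :
    f ∈ UR A g φ k := by
  obtain ⟨γ, h1, h2, h3⟩ := hγ
  obtain ⟨a₀, ha₀⟩ := eventually_atTop.1 (h2.eventually_gt_atTop (k : ℝ))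
  obtain ⟨a, ha, hφa⟩ := ((eventually_ge_atTop a₀).and h3).exists
  obtain ⟨b, hb⟩ := eventually_atTop.1 (h2.eventually_gt_atTop (g (‖deriv γ a‖ + 1)))
  refine ⟨hf, γ, h1, a, max b (a + 1), ‖deriv γ a‖ + 1, ?_,
    fun t ht => max_lt (ha₀ t (ha.trans ht.1)) (hφa t ht.1), by linarith,
    hb _ (le_max_left _ _)⟩
  linarith [le_max_right b (a + 1)]

theorem ur_grow (A : Matrix (Fin (m + 1)) (Fin (m + 1)) ℝ) (g φ : ℝ → ℝ) (hg : Monotone g)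
    (f : E m → ℝ) (hf : ∀ k, f ∈ UR A g φ k) (R : ℝ) :
    ∃ γ : ℝ → Q m, Orb A f γ ∧ ∃ a b : ℝ, a < b ∧ (∀ t ∈ Icc a b, R ≤ ‖deriv γ t‖) ∧
      g ‖deriv γ a‖ ≤ ‖deriv γ b‖ ∧ ∀ t ∈ Icc a b, φ (t - a) ≤ ‖deriv γ t‖ := by
  obtain ⟨k, hk⟩ := exists_nat_ge R
  obtain ⟨-, γ, h1, a, b, r, hab, h2, h3, h4⟩ := hf k
  exact ⟨γ, h1, a, b, hab, fun t ht => hk.trans ((le_max_left _ _).trans (h2 t ht).le),
    (hg h3.le).trans h4.le, fun t ht => (le_max_right _ _).trans (h2 t ht).le⟩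

/-- the rate of growth in dimension at least three -/
noncomputable def rate (m : ℕ) (s : ℝ) : ℝ := if 2 ≤ m then 1 / 2 * s ^ (1 / 5 : ℝ) else -1

theorem rate_cont (m : ℕ) : Continuous (rate m) := by
  unfold rate
  split_ifs
  · exact continuous_const.mul (Real.continuous_rpow_const (by norm_num))
  · exact continuous_const

theorem rate_lt {m : ℕ} (hm : 2 ≤ m) {γ : ℝ → Q m}
    (h : ∀ᶠ t : ℝ in atTop, 3 / 4 * t ^ (1 / 5 : ℝ) ≤ ‖deriv γ t‖) :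
    ∀ᶠ a : ℝ in atTop, ∀ t, a ≤ t → rate m (t - a) < ‖deriv γ t‖ := by
  obtain ⟨T, hT⟩ := eventually_atTop.1 h
  filter_upwards [eventually_ge_atTop T, eventually_gt_atTop (0 : ℝ)] with a ha ha0 t ht
  have h1 := hT t (ha.trans ht)
  have h2 : (t - a) ^ (1 / 5 : ℝ) ≤ t ^ (1 / 5 : ℝ) :=
    Real.rpow_le_rpow (by linarith) (by linarith) (by norm_num)
  have h3 : 0 < t ^ (1 / 5 : ℝ) := Real.rpow_pos_of_pos (by linarith) _
  unfold rate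
  rw [if_pos hm]
  linarith

end Pool.Agent.Helper6K9.EG
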