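import Pool.Agent.Helper6K9.EG.Gen2

set_option autoImplicit false

/-!
# The rate of growth
-/

namespace Pool.Agent.Helper6K9.EG

open Set Filter Topology Pool.Agent.Helper6K9.ES

/-- the rate -/
noncomputable def rt (s : ℝ) : ℝ := 1 / 2 * s ^ (1 / 5 : ℝ)

theorem rt_cont : Continuous rt :=
  continuous_const.mul (Real.continuous_rpow_const (by norm_num))

theorem rt_lt {m : ℕ} {γ : ℝ → Q m}
    (h : ∀ᶠ t : ℝ in atTop, 3 / 4 * t ^ (1 / 5 : ℝ) ≤ ‖deriv γ t‖) :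
    ∀ᶠ a : ℝ in atTop, ∀ t, a ≤ t → rt (t - a) < ‖deriv γ t‖ := by
  obtain ⟨T, hT⟩ := eventually_atTop.1 h
  filter_upwards [eventually_ge_atTop T, eventually_gt_atTop (0 : ℝ)] with a ha ha0 t ht
  have h1 := hT t (ha.trans ht)
  have h2 : (t - a) ^ (1 / 5 : ℝ) ≤ t ^ (1 / 5 : ℝ) :=
    Real.rpow_le_rpow (by linarith) (by linarith) (by norm_num)
  have h3 : 0 < t ^ (1 / 5 : ℝ) := Real.rpow_pos_of_pos (by linarith) _
  unfold rt
  linarith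

/-- a growth like `t^(1/4)` is faster -/
theorem rt_of_quarter {m : ℕ} {γ : ℝ → Q m} {c : ℝ} (hc : 0 < c)
    (h : ∀ᶠ t : ℝ in atTop, c * t ^ (1 / 4 : ℝ) ≤ ‖deriv γ t‖) :
    ∀ᶠ t : ℝ in atTop, 3 / 4 * t ^ (1 / 5 : ℝ) ≤ ‖deriv γ t‖ := by
  have h1 : Tendsto (fun t : ℝ => c * t ^ (1 / 20 : ℝ)) atTop atTop :=
    (tendsto_rpow_atTop (by norm_num)).const_mul_atTop hc
  filter_upwards [h, h1.eventually (eventually_ge_atTop (3 / 4)), eventually_gt_atTop (0 : ℝ)]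
    with t ht ht1 ht0
  refine le_trans ?_ ht
  have h2 : t ^ (1 / 4 : ℝ) = t ^ (1 / 20 : ℝ) * t ^ (1 / 5 : ℝ) := by
    rw [← Real.rpow_add ht0]
    norm_num
  have h3 : 0 < t ^ (1 / 5 : ℝ) := Real.rpow_pos_of_pos ht0 _
  rw [h2, ← mul_assoc]
  exact mul_le_mul_of_nonneg_right ht1 h3.le

end Pool.Agent.Helper6K9.EG
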